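import Pool.Agent.R544.RB.Undir

/-!
# The unweighted red-blue `s`-`t` cut problem in undirected graphs is NP-complete

Reduction from the clique problem, for a graph with the vertices `v`, the edges `e` and the
parameter `k ≥ 2`.  The new graph has the vertices `s`, `t`, the old vertices `v`, one vertex `z_e`
for each edge `e = ab`, with the red edges `s z_e`, `z_e a`, `z_e b`, the blue edges `v t`, and
`k (k - 1) / 2` red paths of length two from `s` to `t`.  If `U` is the set of the old vertices in
`X`, then the cut contains `|U|` blue edges; and it contains, for the best choice of the vertices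
`z_e`, one red edge for each of the short paths and one for each edge `e` which does not have both
ends in `U`.  So the bounds `b = k` and `r = |E|` can be met iff there is a set of at most `k`
vertices with at least `k (k - 1) / 2` edges inside, that is, a clique of size `k`.
-/

namespace Pool.Agent.Results.MP_ad21dd_lc.RedBlueCutNPComplete

open Pool.Agent.NPC Pool.Agent.R544.RB

/-- The unweighted red-blue `s`-`t` cut problem in undirected graphs is `NP`-complete, for simple
graphs, and also if parallel edges are allowed. -/
theorem result :
    (InNPP RedBlueCut ∧ NPHardP RedBlueCut) ∧ (InNPP RedBlueCutMulti ∧ NPHardP RedBlueCutMulti) :=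
  ⟨⟨inNPP_simple, hardI_RB.toNPHardP⟩, ⟨inNPP_multi, hardPr_RB.toHardI.toNPHardP⟩⟩

end Pool.Agent.Results.MP_ad21dd_lc.RedBlueCutNPComplete
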